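import Pool.Agent.H96.LT.Main
import Pool.Graph.R_seed8.H95R2.Leh.Congr

/-!
# Composite `n` with `φ(n) ∣ n - a(n)` in short intervals: more than square root saving

For every `ε > 0` there are `c, C > 0` such that an interval `(x, x + y]` with
`log y ≥ (log (x + y)) ^ (1 / 2 + ε)` contains at most `C √y exp (-c (log log y)²)` composite integers
`n > 4` with `φ(n) ∣ n - a(n)`.
-/

set_option autoImplicit false

namespace Pool.Agent.Results.MP_b50d59_nt.LehmerShortIntervals

open Pool.Agent.H95R2.Leh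

/-- For every `ε > 0` there are `c, C > 0` such that for all `x` and `y ≥ 16` with
`log y ≥ (log (x + y)) ^ (1 / 2 + ε)` the interval `(x, x + y]` contains at most
`C √y exp (-c (log log y)²)` composite integers `n > 4` with `φ(n) ∣ n - a(n)`; here `a(n)` is the
largest exponent in the prime factorisation of `n`. -/
theorem result : ∀ ε : ℝ, 0 < ε → ∃ c C : ℝ, 0 < c ∧ 0 < C ∧ ∀ x y : ℕ, 16 ≤ y →
    (Real.log ((x : ℝ) + y)) ^ (1 / 2 + ε : ℝ) ≤ Real.log y →
    (((Finset.Ioc x (x + y)).filter (fun n : ℕ =>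
      4 < n ∧ ¬ n.Prime ∧ n.totient ∣ (n - Nca8c8b9b.a n))).card : ℝ) ≤
      C * Real.sqrt y * Real.exp (-c * (Real.log (Real.log y)) ^ 2) := by
  classical
  intro ε hε
  obtain ⟨c, C, hc, hC, h⟩ := Pool.Agent.H96.LT.main ε hε
  refine ⟨c, C, hc, hC, ?_⟩
  intro x y hy hlog
  have h1 := h x y hy hlog
  have h2 : C * Real.sqrt y * Real.exp (-c * (Real.log (Real.log y)) ^ 2) =
      C * (Real.sqrt y * Real.exp (-(c * (Real.log (Real.log y)) ^ 2))) := by
    rw [mul_assoc, neg_mul]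
  rw [h2]
  refine le_trans ?_ h1
  have hsub : (Finset.Ioc x (x + y)).filter (fun n : ℕ =>
      4 < n ∧ ¬ n.Prime ∧ n.totient ∣ (n - Nca8c8b9b.a n)) ⊆
      (Finset.Ioc x (x + y)).filter Leh := by
    intro n hn
    rw [Finset.mem_filter] at hn ⊢
    exact ⟨hn.1, leh_of_congr hn.2.1 hn.2.2.1 hn.2.2.2⟩
  exact_mod_cast Finset.card_le_card hsub

end Pool.Agent.Results.MP_b50d59_nt.LehmerShortIntervals
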